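import Pool.Agent.Helper35.PI.St1

/-!
Project PI (MP_b2fa09_gt), module LL1: the star lemma.
-/

set_option autoImplicit false

namespace Helper29.PI

open Helper35.PI

private theorem sum_sub {n : ℕ} (η : Fin n → ℝ) (h : ∑ i, η i ^ 2 ≤ 1) (s : Finset (Fin n)) :
    ∑ i ∈ s, η i ^ 2 ≤ 1 :=
  (Finset.sum_le_sum_of_subset_of_nonneg (Finset.subset_univ s) (fun i _ _ => sq_nonneg (η i))).trans h

private theorem disj {n : ℕ} (η : Fin n → ℝ) (h : ∑ i, η i ^ 2 ≤ 1) (i j k l : Fin n)
    (hij : i ≠ j) (hik : i ≠ k) (hil : i ≠ l) (hjk : j ≠ k) (hjl : j ≠ l) (hkl : k ≠ l)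
    (h1 : 1 < (η i - η j) ^ 2) (h2 : 1 < (η k - η l) ^ 2) : False := by
  have h3 := sum_sub η h {i, j, k, l}
  rw [Finset.sum_insert (by simp [hij, hik, hil]), Finset.sum_insert (by simp [hjk, hjl]),
    Finset.sum_insert (by simp [hkl]), Finset.sum_singleton] at h3
  nlinarith [sq_nonneg (η i + η j), sq_nonneg (η k + η l)]

private theorem gap {x y : ℝ} (h : 1 < (x - y) ^ 2) : 1 < x - y ∨ 1 < y - x := by
  by_contra hc
  push Not at hc
  nlinarith [hc.1, hc.2]

private theorem two {x z s : ℝ} (h : 2 < x - z) (h1 : x ^ 2 + z ^ 2 ≤ s) (hs : s ≤ 1) : False := by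
  nlinarith [sq_nonneg (x + z)]

private theorem tri {n : ℕ} (η : Fin n → ℝ) (h : ∑ i, η i ^ 2 ≤ 1) (i j k : Fin n)
    (hij : i ≠ j) (hik : i ≠ k) (hjk : j ≠ k)
    (h1 : 1 < (η i - η j) ^ 2) (h2 : 1 < (η j - η k) ^ 2) (h3 : 1 < (η i - η k) ^ 2) : False := by
  have h4 := sum_sub η h {i, j, k}
  rw [Finset.sum_insert (by simp [hij, hik]), Finset.sum_insert (by simp [hjk]),
    Finset.sum_singleton] at h4
  have q1 := sq_nonneg (η i)
  have q2 := sq_nonneg (η j)
  have q3 := sq_nonneg (η k)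
  rcases gap h1 with a | a <;> rcases gap h2 with b | b <;> rcases gap h3 with c | c
  · exact two (x := η i) (z := η k) (by linarith) (by linarith) h4
  · linarith
  · exact two (x := η i) (z := η j) (by linarith) (by linarith) h4
  · exact two (x := η k) (z := η j) (by linarith) (by linarith) h4
  · exact two (x := η j) (z := η k) (by linarith) (by linarith) h4
  · exact two (x := η j) (z := η i) (by linarith) (by linarith) h4
  · linarith
  · exact two (x := η k) (z := η i) (by linarith) (by linarith) h4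

/-- All large gaps contain a common index. -/
private theorem star {n : ℕ} (η : Fin n → ℝ) (h : ∑ i, η i ^ 2 ≤ 1) (a b : Fin n) (hab : 1 < (η a - η b) ^ 2) :
    ∃ c : Fin n, ∀ i j, 1 < (η i - η j) ^ 2 → i = c ∨ j = c := by
  have ne : ∀ i j, 1 < (η i - η j) ^ 2 → i ≠ j := by
    rintro i j h1 rfl
    norm_num at h1
  have sy : ∀ i j, 1 < (η i - η j) ^ 2 → 1 < (η j - η i) ^ 2 := by
    intro i j h1
    nlinarith
  have meet : ∀ i j k l, 1 < (η i - η j) ^ 2 → 1 < (η k - η l) ^ 2 → i = k ∨ i = l ∨ j = k ∨ j = l := by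
    intro i j k l h1 h2
    by_contra hc
    push Not at hc
    obtain ⟨c1, c2, c3, c4⟩ := hc
    exact disj η h i j k l (ne _ _ h1) c1 c2 c3 c4 (ne _ _ h2) h1 h2
  by_cases hA : ∀ i j, 1 < (η i - η j) ^ 2 → i = a ∨ j = a
  · exact ⟨a, hA⟩
  · push Not at hA
    obtain ⟨k, l, hkl, hka, hla⟩ := hA
    -- a second pair `{b, c}` with `c ≠ a`
    obtain ⟨c, hc, hca⟩ : ∃ c, 1 < (η b - η c) ^ 2 ∧ c ≠ a := by
      rcases meet a b k l hab hkl with e | e | e | e
      · exact absurd e.symm hka
      · exact absurd e.symm hla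
      · exact ⟨l, by rw [e]; exact hkl, hla⟩
      · exact ⟨k, by rw [e]; exact sy _ _ hkl, hka⟩
    refine ⟨b, fun i j hij => ?_⟩
    by_contra hne
    push Not at hne
    obtain ⟨hib, hjb⟩ := hne
    have tr : 1 < (η a - η c) ^ 2 → False := fun hac =>
      tri η h a b c (ne _ _ hab) (Ne.symm hca) (ne _ _ hc) hab hc hac
    rcases meet i j a b hij hab with e | e | e | e
    · rcases meet i j b c hij hc with g | g | g | g
      · exact hib g
      · exact hca (g.symm.trans e)
      · exact hjb g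
      · exact tr (by rw [← e, ← g]; exact hij)
    · exact hib e
    · rcases meet i j b c hij hc with g | g | g | g
      · exact hib g
      · exact tr (by rw [← e, ← g]; exact sy _ _ hij)
      · exact hjb g
      · exact hca (g.symm.trans e)
    · exact hjb e

/-- The star sum. -/
private theorem starsum {n : ℕ} (η : Fin n → ℝ) (h : ∑ i, η i ^ 2 ≤ 1) (c : Fin n) (s : Finset (Fin n)) (hs : c ∉ s) :
    ∑ j ∈ s, ((η c - η j) ^ 2 - 1) ≤ 1 := by
  have h1 := sum_sub η h (insert c s)
  rw [Finset.sum_insert hs] at h1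
  have h2 : (∑ j ∈ s, η j) ^ 2 ≤ s.card * ∑ j ∈ s, η j ^ 2 := sq_sum_le_card_mul_sum_sq
  have h3 : ∑ j ∈ s, ((η c - η j) ^ 2 - 1) =
      s.card * η c ^ 2 - 2 * η c * (∑ j ∈ s, η j) + ∑ j ∈ s, η j ^ 2 - s.card := by
    have : ∀ j ∈ s, (η c - η j) ^ 2 - 1 = η c ^ 2 - 2 * η c * η j + η j ^ 2 - 1 := fun j _ => by ring
    rw [Finset.sum_congr rfl this, Finset.sum_sub_distrib, Finset.sum_add_distrib, Finset.sum_sub_distrib,
      ← Finset.mul_sum]
    simp
  have h4 : (0 : ℝ) ≤ s.card := Nat.cast_nonneg _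
  have h5 : (s.card : ℝ) * ∑ j ∈ s, η j ^ 2 ≤ s.card * (1 - η c ^ 2) :=
    mul_le_mul_of_nonneg_left (by linarith) h4
  rw [h3]
  nlinarith [sq_nonneg (η c + ∑ j ∈ s, η j)]

/-- LL1, the star lemma. -/
theorem hLL1 : StLL1 := by
  intro n η h
  by_cases hI : ∃ a b, 1 < (η a - η b) ^ 2
  · obtain ⟨a, b, hab⟩ := hI
    obtain ⟨c, hc⟩ := star η h a b hab
    let g : Fin n → Fin n → ℝ := fun i j => if i < j ∧ 1 < (η i - η j) ^ 2 then (η i - η j) ^ 2 - 1 else 0
    let s : Finset (Fin n) := Finset.univ.filter (fun j => j ≠ c ∧ 1 < (η c - η j) ^ 2)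
    have hcs : c ∉ s := by simp [s]
    have key : ∑ i, ∑ j, g i j = ∑ j ∈ s, ((η c - η j) ^ 2 - 1) := by
      have h1 : ∀ i j, g i j = (if i = c then g c j else 0) + (if j = c then g i c else 0) := by
        intro i j
        by_cases hij : i < j ∧ 1 < (η i - η j) ^ 2
        · rcases hc i j hij.2 with e | e
          · have : j ≠ c := by rw [← e]; exact (ne_of_lt hij.1).symm
            rw [if_pos e, if_neg this, e, add_zero]
          · have : i ≠ c := by rw [← e]; exact ne_of_lt hij.1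
            rw [if_neg this, if_pos e, e, zero_add]
        · have h0 : g i j = 0 := if_neg hij
          rw [h0]
          by_cases e : i = c
          · by_cases e' : j = c
            · subst e; subst e'
              rw [if_pos rfl]; linarith
            · subst e
              rw [if_pos rfl, if_neg e', h0]; ring
          · by_cases e' : j = c
            · subst e'
              rw [if_neg e, if_pos rfl, h0]; ring
            · rw [if_neg e, if_neg e']; ring
      have h2 : ∑ i, ∑ j, g i j = ∑ j, (g c j + g j c) := by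
        have e1 : ∑ i, ∑ j, g i j = ∑ i, ∑ j, ((if i = c then g c j else 0) + (if j = c then g i c else 0)) :=
          Finset.sum_congr rfl (fun i _ => Finset.sum_congr rfl (fun j _ => h1 i j))
        rw [e1]
        simp only [Finset.sum_add_distrib]
        congr 1
        · rw [Finset.sum_comm]
          simp
        · simp
      rw [h2, Finset.sum_filter]
      refine Finset.sum_congr rfl (fun j _ => ?_)
      simp only [g]
      rcases lt_trichotomy c j with hlt | heq | hgt
      · have n1 : ¬ (j < c ∧ 1 < (η j - η c) ^ 2) := fun hh => absurd hh.1 (not_lt.mpr hlt.le)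
        rw [if_neg n1, add_zero]
        by_cases hg : 1 < (η c - η j) ^ 2
        · rw [if_pos ⟨hlt, hg⟩, if_pos ⟨(ne_of_lt hlt).symm, hg⟩]
        · rw [if_neg (fun hh => hg hh.2), if_neg (fun hh => hg hh.2)]
      · subst heq
        simp
      · have n1 : ¬ (c < j ∧ 1 < (η c - η j) ^ 2) := fun hh => absurd hh.1 (not_lt.mpr hgt.le)
        have sw : (η j - η c) ^ 2 = (η c - η j) ^ 2 := by ring
        rw [if_neg n1, zero_add, sw]
        by_cases hg : 1 < (η c - η j) ^ 2
        · rw [if_pos ⟨hgt, hg⟩, if_pos ⟨ne_of_lt hgt, hg⟩]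
        · rw [if_neg (fun hh => hg hh.2), if_neg (fun hh => hg hh.2)]
    change ∑ i, ∑ j, g i j ≤ 1
    rw [key]
    exact starsum η h c s hcs
  · push Not at hI
    have hz : ∀ i j : Fin n, (if i < j ∧ 1 < (η i - η j) ^ 2 then (η i - η j) ^ 2 - 1 else 0) = 0 := fun i j =>
      if_neg (fun hh => absurd hh.2 (not_lt.mpr (hI i j)))
    rw [Finset.sum_congr rfl (fun i _ => Finset.sum_congr rfl (fun j _ => hz i j))]
    simp

end Helper29.PI
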