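import Pool.Agent.Helper35.PI.St2

/-!
Project PI (MP_b2fa09_gt), module MX1: jets of the logarithmic test function.
-/

set_option autoImplicit false

namespace Helper29.PI

open Helper35.PI
open scoped ContDiff Topology
open Set Filter

/-- The jet of `φ` at `z`: regularity, spatial gradient and heat. -/
private def Jt {n : ℕ} (φ : EE n × ℝ → ℝ) (z : EE n × ℝ) (g : Fin n → ℝ) (h : ℝ) : Prop :=
  ContDiffAt ℝ 2 φ z ∧ (∀ k, jg φ z k = g k) ∧ jh φ z = h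

private theorem Jt_congr {n : ℕ} {φ : EE n × ℝ → ℝ} {z : EE n × ℝ} {g g' : Fin n → ℝ} {h h' : ℝ}
    (a : Jt φ z g h) (hg : ∀ k, g k = g' k) (hh : h = h') : Jt φ z g' h' :=
  ⟨a.1, fun k => (a.2.1 k).trans (hg k), a.2.2.trans hh⟩

private theorem Jt_self {n : ℕ} {φ : EE n × ℝ → ℝ} {z : EE n × ℝ} (h : ContDiffAt ℝ 2 φ z) :
    Jt φ z (jg φ z) (jh φ z) := ⟨h, fun _ => rfl, rfl⟩

private theorem Jt_const (hJA : StJA) {n : ℕ} (z : EE n × ℝ) (c : ℝ) :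
    Jt (fun _ : EE n × ℝ => c) z (fun _ => 0) 0 := by
  obtain ⟨_, h2, _⟩ := hJA n ℝ z
  exact ⟨contDiffAt_const, (h2 c).1, (h2 c).2⟩

private theorem Jt_add (hJA : StJA) {n : ℕ} {φ ψ : EE n × ℝ → ℝ} {z : EE n × ℝ} {g g' : Fin n → ℝ} {h h' : ℝ}
    (a : Jt φ z g h) (b : Jt ψ z g' h') : Jt (fun z => φ z + ψ z) z (fun k => g k + g' k) (h + h') := by
  obtain ⟨_, _, h3, _⟩ := hJA n ℝ z
  obtain ⟨e1, e2, _, _⟩ := h3 φ ψ a.1 b.1
  exact ⟨a.1.add b.1, fun k => by rw [e1, a.2.1, b.2.1], by rw [e2, a.2.2, b.2.2]⟩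

private theorem Jt_sub (hJA : StJA) {n : ℕ} {φ ψ : EE n × ℝ → ℝ} {z : EE n × ℝ} {g g' : Fin n → ℝ} {h h' : ℝ}
    (a : Jt φ z g h) (b : Jt ψ z g' h') : Jt (fun z => φ z - ψ z) z (fun k => g k - g' k) (h - h') := by
  obtain ⟨_, _, h3, _⟩ := hJA n ℝ z
  obtain ⟨_, _, e1, e2⟩ := h3 φ ψ a.1 b.1
  exact ⟨a.1.sub b.1, fun k => by rw [e1, a.2.1, b.2.1], by rw [e2, a.2.2, b.2.2]⟩

private theorem Jt_smul (hJA : StJA) {n : ℕ} {φ : EE n × ℝ → ℝ} {z : EE n × ℝ} {g : Fin n → ℝ} {h : ℝ}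
    (c : ℝ) (a : Jt φ z g h) : Jt (fun z => c * φ z) z (fun k => c * g k) (c * h) := by
  obtain ⟨_, _, _, h4, _⟩ := hJA n ℝ z
  obtain ⟨e1, e2⟩ := h4 φ c a.1
  simp only [smul_eq_mul] at e1 e2
  exact ⟨contDiffAt_const.mul a.1, fun k => by rw [e1, a.2.1], by rw [e2, a.2.2]⟩

private theorem Jt_mul (hJB : StJB) {n : ℕ} {φ ψ : EE n × ℝ → ℝ} {z : EE n × ℝ} {g g' : Fin n → ℝ} {h h' : ℝ}
    (a : Jt φ z g h) (b : Jt ψ z g' h') : Jt (fun z => φ z * ψ z) z (fun k => g k * ψ z + φ z * g' k)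
      (h * ψ z + φ z * h' - 2 * ∑ k, g k * g' k) := by
  obtain ⟨e1, e2⟩ := (hJB n 0 z).1 φ ψ a.1 b.1
  refine ⟨a.1.mul b.1, fun k => by rw [e1, a.2.1, b.2.1], ?_⟩
  rw [e2, a.2.2, b.2.2, Finset.sum_congr rfl (fun k _ => by rw [a.2.1, b.2.1])]

private theorem Jt_log (hJD : StJD) {n : ℕ} {φ : EE n × ℝ → ℝ} {z : EE n × ℝ} {g : Fin n → ℝ} {h : ℝ}
    (a : Jt φ z g h) (h0 : φ z ≠ 0) : Jt (fun z => Real.log (φ z)) z (fun k => g k / φ z)
      (h / φ z + (∑ k, g k ^ 2) / φ z ^ 2) := by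
  obtain ⟨e1, e2⟩ := (hJD n z).1 φ a.1 h0
  refine ⟨a.1.log h0, fun k => by rw [e1, a.2.1], ?_⟩
  rw [e2, a.2.2, Finset.sum_congr rfl (fun k _ => by rw [a.2.1])]

private theorem Jt_div (hJD : StJD) {n : ℕ} {φ ψ : EE n × ℝ → ℝ} {z : EE n × ℝ} {g g' : Fin n → ℝ} {h h' : ℝ}
    (a : Jt φ z g h) (b : Jt ψ z g' h') (h0 : ψ z ≠ 0) :
    Jt (fun z => φ z / ψ z) z (fun k => g k / ψ z - φ z * g' k / ψ z ^ 2)
      (h / ψ z - φ z * h' / ψ z ^ 2 + 2 * (∑ k, g k * g' k) / ψ z ^ 2 - 2 * φ z * (∑ k, g' k ^ 2) / ψ z ^ 3) := by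
  obtain ⟨e1, e2⟩ := (hJD n z).2 φ ψ a.1 b.1 h0
  refine ⟨a.1.div b.1 h0, fun k => by rw [e1, a.2.1, b.2.1], ?_⟩
  rw [e2, a.2.2, b.2.2]
  simp only [a.2.1, b.2.1]

/-- the time function -/
private theorem Jt_time {n : ℕ} (z : EE n × ℝ) (T₀ : ℝ) :
    Jt (fun z' : EE n × ℝ => z'.2 - T₀) z (fun _ => 0) 1 := by
  have hd : ∀ z' : EE n × ℝ, fderiv ℝ (fun z' : EE n × ℝ => z'.2 - T₀) z' = ContinuousLinearMap.snd ℝ (EE n) ℝ := by
    intro z'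
    rw [fderiv_sub_const]
    exact fderiv_snd
  have hg : ∀ (z' : EE n × ℝ) k, jg (fun z' : EE n × ℝ => z'.2 - T₀) z' k = 0 := by
    intro z' k
    unfold jg
    rw [hd]
    rfl
  refine ⟨contDiffAt_snd.sub contDiffAt_const, hg z, ?_⟩
  have hgg : ∀ k, jgg (fun z' : EE n × ℝ => z'.2 - T₀) z k k = 0 := by
    intro k
    unfold jgg
    have : (fun z' : EE n × ℝ => jg (fun z' : EE n × ℝ => z'.2 - T₀) z' k) = fun _ => (0 : ℝ) := by
      funext z'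
      exact hg z' k
    rw [this]
    unfold jg
    simp
  unfold jh jt
  rw [hd, Finset.sum_congr rfl (fun k _ => hgg k)]
  simp

/-- MX1. -/
theorem hMX1 (hJA : StJA) (hJB : StJB) (hJD : StJD) : StMX1 := by
  intro n z X Y Z W κ T₀ k hX hY hZ hW hY0 hW0 hT s r hs hr gs gr es er hr0 hd0 egs egr ehs ehr Lf eL
  have hYne : Y z ≠ 0 := hY0.ne'
  have JX := Jt_self hX
  have JY := Jt_self hY
  have JZ := Jt_self hZ
  have JW := Jt_self hW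
  have JYY : Jt (fun z => Y z ^ 2) z (fun k => 2 * Y z * jg Y z k)
      (2 * Y z * jh Y z - 2 * ∑ k, jg Y z k ^ 2) := by
    have h1 := Jt_mul hJB JY JY
    have h2 : (fun z => Y z * Y z) = fun z => Y z ^ 2 := funext (fun z => (sq (Y z)).symm)
    rw [h2] at h1
    refine Jt_congr h1 (fun k => by ring) ?_
    rw [Finset.sum_congr rfl (fun k _ => (sq (jg Y z k)).symm)]
    ring
  have JZq : Jt (fun z => Z z / Y z ^ 2) z gs hs := by
    refine Jt_congr (Jt_div hJD JZ JYY (pow_ne_zero 2 hYne)) (fun j => ?_) ?_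
    · rw [egs j]
      field_simp
    · have e1 : ∑ k, jg Z z k * (2 * Y z * jg Y z k) = 2 * Y z * ∑ k, jg Z z k * jg Y z k := by
        rw [Finset.mul_sum]
        exact Finset.sum_congr rfl (fun k _ => by ring)
      have e2 : ∑ k, (2 * Y z * jg Y z k) ^ 2 = 4 * Y z ^ 2 * ∑ k, jg Y z k ^ 2 := by
        rw [Finset.mul_sum]
        exact Finset.sum_congr rfl (fun k _ => by ring)
      rw [e1, e2, ehs]
      field_simp
      ring
  have JXq : Jt (fun z => X z / Y z) z (fun j => gs j + gr j) (hs + hr) := by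
    refine Jt_congr (Jt_div hJD JX JY hYne) (fun j => ?_) ?_
    · rw [egr j]; ring
    · rw [ehr]
  have Js : Jt (fun z => Z z / Y z ^ 2 - 1 / (n : ℝ)) z gs hs :=
    Jt_congr (Jt_sub hJA JZq (Jt_const hJA z (1 / (n : ℝ)))) (fun j => by ring) (by ring)
  have Jr : Jt (fun z => X z / Y z - Z z / Y z ^ 2) z gr hr :=
    Jt_congr (Jt_sub hJA JXq JZq) (fun j => by ring) (by ring)
  have Jd : Jt (fun z => κ - (Z z / Y z ^ 2 - 1 / (n : ℝ)) - (X z / Y z - Z z / Y z ^ 2)) z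
      (fun j => -(gs j + gr j)) (-(hs + hr)) :=
    Jt_congr (Jt_sub hJA (Jt_sub hJA (Jt_const hJA z κ) Js) Jr) (fun j => by ring) (by ring)
  have hrne : X z / Y z - Z z / Y z ^ 2 ≠ 0 := by rw [← er]; exact hr0.ne'
  have hdne : κ - (Z z / Y z ^ 2 - 1 / (n : ℝ)) - (X z / Y z - Z z / Y z ^ 2) ≠ 0 := by
    rw [← er, ← es]; exact hd0.ne'
  have Jlr := Jt_log hJD Jr hrne
  have Jld := Jt_log hJD Jd hdne
  have JlW := Jt_smul hJA 2 (Jt_log hJD JW hW0.ne')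
  have JlY := Jt_log hJD JY hYne
  have Jlt := Jt_log hJD (Jt_time z T₀) (sub_pos.mpr hT).ne'
  have JF := Jt_add hJA (Jt_add hJA (Jt_add hJA JlW Jlt) (Jt_smul hJA (k : ℝ) (Jt_sub hJA Jlr Jld))) JlY
  rw [eL]
  refine ⟨JF.1, fun j => ?_, ?_⟩
  · refine (JF.2.1 j).trans ?_
    simp only [← er, ← es]
    ring
  · refine JF.2.2.trans ?_
    simp only [← er, ← es]
    have e3 : ∑ k, (-(gs k + gr k)) ^ 2 = ∑ k, (gs k + gr k) ^ 2 :=
      Finset.sum_congr rfl (fun k _ => by ring)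
    rw [e3]
    simp only [ne_eq, OfNat.ofNat_ne_zero, not_false_eq_true, zero_pow, Finset.sum_const_zero, zero_div, add_zero]
    ring

end Helper29.PI
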